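import Pool.Agent.Run7.h538.TP.Stm

/-! Piece CON of the project TP (helper538), by helper456. -/

set_option autoImplicit false

namespace Run7.h456.TP

open Finset Run7.h538.TP

/-- the product `∏_{i ≠ j} (j - i)` -/
noncomputable def ee {K : ℕ} (j : Fin K) : ℝ := ∏ i ∈ univ.erase j, ((j.val : ℝ) - (i.val : ℝ))

theorem ee_ne {K : ℕ} (j : Fin K) : ee j ≠ 0 := by
  unfold ee
  rw [prod_ne_zero_iff]
  intro i hi
  have h := (mem_erase.1 hi).1
  rw [sub_ne_zero]
  intro h2
  apply h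
  apply Fin.ext
  exact_mod_cast h2.symm

theorem ee_sign {K : ℕ} (j : Fin K) : ee j = (-1) ^ (K - 1 - j.val) * |ee j| := by
  have h1 : ∀ i ∈ univ.erase j, ((j.val : ℝ) - (i.val : ℝ)) =
      (if j < i then -1 else 1) * |(j.val : ℝ) - (i.val : ℝ)| := by
    intro i hi
    have hne := (mem_erase.1 hi).1
    split_ifs with h
    · have h2 : (j.val : ℝ) < i.val := by exact_mod_cast h
      rw [abs_of_neg (by linarith)]
      ring
    · have h2 : (i.val : ℝ) < j.val := by
        have : i < j := lt_of_le_of_ne (not_lt.1 h) hne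
        exact_mod_cast this
      rw [abs_of_pos (by linarith)]
      ring
  have h2 : ∏ i ∈ univ.erase j, (if j < i then (-1 : ℝ) else 1) = (-1) ^ (K - 1 - j.val) := by
    rw [prod_ite, prod_const, prod_const_one, mul_one]
    congr 1
    have h3 : (univ.erase j).filter (fun i => j < i) = Ioi j := by
      ext i
      simp only [mem_filter, mem_erase, mem_univ, and_true, mem_Ioi]
      constructor
      · exact fun h => h.2
      · exact fun h => ⟨h.ne', h⟩
    rw [h3, Fin.card_Ioi]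
  unfold ee
  conv_lhs => rw [prod_congr rfl h1, prod_mul_distrib, h2]
  rw [abs_prod]

theorem t_CON : S_CON := by
  intro K γ hγ
  have hpos : ∀ j : Fin K, 0 < |ee j| := fun j => abs_pos.2 (ee_ne j)
  have hterm : ∀ j : Fin K, 0 < 4 / (γ j * |ee j|) := fun j => by
    have := hγ j
    have := hpos j
    positivity
  have hsum : 0 ≤ ∑ j : Fin K, 4 / (γ j * |ee j|) := sum_nonneg fun j _ => (hterm j).le
  obtain ⟨b, hb, hb4⟩ : ∃ b : ℝ, 0 < b ∧ ∀ j : Fin K, 4 * b ≤ γ j * |ee j| := by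
    refine ⟨1 / (1 + ∑ j : Fin K, 4 / (γ j * |ee j|)), by positivity, fun j => ?_⟩
    have h1 : 4 / (γ j * |ee j|) ≤ ∑ j : Fin K, 4 / (γ j * |ee j|) :=
      single_le_sum (f := fun j : Fin K => 4 / (γ j * |ee j|)) (fun i _ => (hterm i).le)
        (mem_univ j)
    have h2 : 0 < γ j * |ee j| := mul_pos (hγ j) (hpos j)
    rw [div_le_iff₀ h2] at h1
    have h3 : 0 < 1 + ∑ j : Fin K, 4 / (γ j * |ee j|) := by positivity
    rw [mul_one_div, div_le_iff₀ h3]
    nlinarith
  have hsg : ∀ j : Fin K, ((-1 : ℝ) ^ K * b) / ee j =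
      (-1) ^ (K + (K - 1 - j.val)) * (b / |ee j|) := by
    intro j
    have h1 : ((-1 : ℝ) ^ (K - 1 - j.val)) * (-1) ^ (K - 1 - j.val) = 1 := by
      rw [← mul_pow]
      norm_num
    have h2 : (-1 : ℝ) ^ (K - 1 - j.val) ≠ 0 := by
      intro h
      rw [h, zero_mul] at h1
      exact zero_ne_one h1
    have h3 := (hpos j).ne'
    rw [div_eq_iff (ee_ne j)]
    conv_rhs => rw [ee_sign j]
    rw [abs_mul, abs_pow, abs_neg, abs_one, one_pow, one_mul, abs_abs, pow_add]
    have h4 : b / |ee j| * |ee j| = b := div_mul_cancel₀ _ h3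
    calc (-1 : ℝ) ^ K * b = (-1) ^ K * (b / |ee j| * |ee j|) := by rw [h4]
      _ = (-1) ^ K * (b / |ee j| * |ee j|) *
          (((-1 : ℝ) ^ (K - 1 - j.val)) * (-1) ^ (K - 1 - j.val)) := by rw [h1, mul_one]
      _ = _ := by ring
  have hodd : ∀ j : Fin K, Even j.val → ((-1 : ℝ) ^ K * b) / ee j = -(b / |ee j|) := by
    intro j hj
    rw [hsg j]
    obtain ⟨m, hm⟩ := hj
    have h1 : Odd (K + (K - 1 - j.val)) := ⟨K - 1 - m, by have := j.2; omega⟩
    rw [h1.neg_one_pow]
    ring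
  have heven : ∀ j : Fin K, ¬ Even j.val → ((-1 : ℝ) ^ K * b) / ee j = b / |ee j| := by
    intro j hj
    rw [hsg j]
    rw [Nat.not_even_iff_odd] at hj
    obtain ⟨m, hm⟩ := hj
    have h1 : Even (K + (K - 1 - j.val)) := ⟨K - 1 - m, by have := j.2; omega⟩
    rw [h1.neg_one_pow, one_mul]
  classical
  have hz : ∀ (x : Fin K → ℝ) (j : Fin K), (-1 : ℝ) ^ K * b *
      zz (fun i : Fin K => (i.val : ℝ)) x j = ((-1 : ℝ) ^ K * b) / ee j / x j := by
    intro x j
    unfold zz ee
    rw [mul_one_div, div_div]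
  refine ⟨(-1) ^ K * b, fun j => if Even j.val then Real.sqrt (b / |ee j|) else
    (Real.sqrt (γ j) + Real.sqrt (γ j - 4 * (b / |ee j|))) / 2, ?_, ?_, ?_, ?_⟩
  · exact mul_ne_zero (pow_ne_zero _ (by norm_num)) hb.ne'
  · intro j
    have h1 : 0 < b / |ee j| := div_pos hb (hpos j)
    show (if Even j.val then Real.sqrt (b / |ee j|) else
      (Real.sqrt (γ j) + Real.sqrt (γ j - 4 * (b / |ee j|))) / 2) ≠ 0
    split_ifs
    · exact (Real.sqrt_pos.2 h1).ne'
    · have h2 := Real.sqrt_pos.2 (hγ j)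
      have h3 := Real.sqrt_nonneg (γ j - 4 * (b / |ee j|))
      have : 0 < (Real.sqrt (γ j) + Real.sqrt (γ j - 4 * (b / |ee j|))) / 2 := by linarith
      exact this.ne'
  · intro j hj
    rw [hz, hodd j hj]
    simp only [if_pos hj]
    have h1 : 0 < b / |ee j| := div_pos hb (hpos j)
    have h2 := Real.sqrt_pos.2 h1
    have h3 := Real.mul_self_sqrt h1.le
    have h4 : -(b / |ee j|) / Real.sqrt (b / |ee j|) = -Real.sqrt (b / |ee j|) := by
      rw [div_eq_iff h2.ne']
      linarith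
    rw [h4]
    ring
  · intro j hj
    rw [hz, heven j hj]
    simp only [if_neg hj]
    have h1 : 0 < b / |ee j| := div_pos hb (hpos j)
    have h0 : 0 ≤ γ j - 4 * (b / |ee j|) := by
      have h2 := hb4 j
      have h3 := hpos j
      have h4 : b / |ee j| * |ee j| = b := div_mul_cancel₀ _ h3.ne'
      by_contra hneg
      push Not at hneg
      have h5 : (γ j - 4 * (b / |ee j|)) * |ee j| < 0 := mul_neg_of_neg_of_pos hneg h3
      nlinarith
    have g1 := Real.mul_self_sqrt (hγ j).le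
    have g2 := Real.mul_self_sqrt h0
    have g3 := Real.sqrt_pos.2 (hγ j)
    have g4 := Real.sqrt_nonneg (γ j - 4 * (b / |ee j|))
    set u := Real.sqrt (γ j)
    set w := Real.sqrt (γ j - 4 * (b / |ee j|))
    have hx : 0 < (u + w) / 2 := by linarith
    have h5 : b / |ee j| / ((u + w) / 2) = (u - w) / 2 := by
      rw [div_eq_iff hx.ne']
      nlinarith
    rw [h5]
    have h6 : (u + w) / 2 + (u - w) / 2 = u := by ring
    rw [h6, sq]
    exact g1

end Run7.h456.TP
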